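import Mathlib
set_option autoImplicit false

open Module
open scoped Pointwise

namespace Pool.Agent.Results.MP_4fa8e2_co.HalfPower

/-- The Gaussian integers. -/
abbrev G := QuadraticAlgebra ℤ (-1) 0

/-- The ring of elements `a + b * sqrt 3` with `a, b` Gaussian integers. -/
abbrev O := QuadraticAlgebra G 3 0

/-- The Gaussian integer `1 + i`. -/
def nu : O := ⟨⟨1, 1⟩, 0⟩

/-- The element `sqrt 3`. -/
def pii : O := ⟨0, 1⟩

theorem F1 : ∀ a b c d : ZMod 3, a ^ 2 - b ^ 2 = c ^ 2 - d ^ 2 - 2 * c * d →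
    2 * a * b = c ^ 2 - d ^ 2 + 2 * c * d → a = 0 ∧ b = 0 ∧ c = 0 ∧ d = 0 := by decide

theorem F2 : ∀ e c d : ZMod 3, e = c ^ 2 - d ^ 2 - 2 * c * d →
    0 = c ^ 2 - d ^ 2 + 2 * c * d → e = 0 ∧ c = 0 ∧ d = 0 := by decide

theorem dvd3 (a : ℤ) (h : (a : ZMod 3) = 0) : ∃ b, a = 3 * b := by
  obtain ⟨b, hb⟩ := (ZMod.intCast_zmod_eq_zero_iff_dvd a 3).1 h
  exact ⟨b, by simpa using hb⟩

/-- `x^2 ≡ nu y^2` modulo 3 in the Gaussian integers forces divisibility by 3. -/
theorem F1' (x y : G) (z : G) (h : x ^ 2 = ⟨1, 1⟩ * y ^ 2 + 3 * z) :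
    (∃ x', x = 3 * x') ∧ ∃ y', y = 3 * y' := by
  have h1 := congrArg QuadraticAlgebra.re h
  have h2 := congrArg QuadraticAlgebra.im h
  simp only [pow_two, QuadraticAlgebra.re_mul, QuadraticAlgebra.im_mul, QuadraticAlgebra.re_add,
    QuadraticAlgebra.im_add, QuadraticAlgebra.re_ofNat, QuadraticAlgebra.im_ofNat] at h1 h2
  have h1' := congrArg (Int.cast : ℤ → ZMod 3) h1
  have h2' := congrArg (Int.cast : ℤ → ZMod 3) h2
  push_cast at h1' h2'
  have h3 : (3 : ZMod 3) = 0 := by decide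
  obtain ⟨ha, hb, hc, hd⟩ := F1 x.re x.im y.re y.im
    (by linear_combination h1' + (z.re : ZMod 3) * h3)
    (by linear_combination h2' + (z.im : ZMod 3) * h3)
  obtain ⟨a, ha⟩ := dvd3 _ ha
  obtain ⟨b, hb⟩ := dvd3 _ hb
  obtain ⟨c, hc⟩ := dvd3 _ hc
  obtain ⟨d, hd⟩ := dvd3 _ hd
  refine ⟨⟨⟨a, b⟩, ?_⟩, ⟨⟨c, d⟩, ?_⟩⟩
  · ext <;> simp [ha, hb, QuadraticAlgebra.re_mul, QuadraticAlgebra.im_mul, QuadraticAlgebra.re_ofNat, QuadraticAlgebra.im_ofNat]
  · ext <;> simp [hc, hd, QuadraticAlgebra.re_mul, QuadraticAlgebra.im_mul, QuadraticAlgebra.re_ofNat, QuadraticAlgebra.im_ofNat]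

theorem F2' (e : ℤ) (y : G) (z : G) (h : (e : G) = ⟨1, 1⟩ * y ^ 2 + 3 * z) :
    (∃ e', e = 3 * e') ∧ ∃ y', y = 3 * y' := by
  have h1 := congrArg QuadraticAlgebra.re h
  have h2 := congrArg QuadraticAlgebra.im h
  simp only [pow_two, QuadraticAlgebra.re_mul, QuadraticAlgebra.im_mul, QuadraticAlgebra.re_add,
    QuadraticAlgebra.im_add, QuadraticAlgebra.re_ofNat, QuadraticAlgebra.im_ofNat,
    QuadraticAlgebra.re_intCast, QuadraticAlgebra.im_intCast] at h1 h2
  have h1' := congrArg (Int.cast : ℤ → ZMod 3) h1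
  have h2' := congrArg (Int.cast : ℤ → ZMod 3) h2
  push_cast at h1' h2'
  have h3 : (3 : ZMod 3) = 0 := by decide
  obtain ⟨ha, hc, hd⟩ := F2 e y.re y.im
    (by linear_combination h1' + (z.re : ZMod 3) * h3)
    (by linear_combination h2' + (z.im : ZMod 3) * h3)
  obtain ⟨a, ha⟩ := dvd3 _ ha
  obtain ⟨c, hc⟩ := dvd3 _ hc
  obtain ⟨d, hd⟩ := dvd3 _ hd
  refine ⟨⟨a, ha⟩, ⟨⟨c, d⟩, ?_⟩⟩
  ext <;> simp [hc, hd, QuadraticAlgebra.re_mul, QuadraticAlgebra.im_mul, QuadraticAlgebra.re_ofNat, QuadraticAlgebra.im_ofNat]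


theorem pii_mul (x : O) : pii * x = ⟨3 * x.im, x.re⟩ := by
  ext1 <;> simp [pii, QuadraticAlgebra.re_mul, QuadraticAlgebra.im_mul]

theorem pii_sq : pii * pii = 3 := by
  rw [pii_mul]
  ext1 <;> simp [pii, QuadraticAlgebra.re_ofNat, QuadraticAlgebra.im_ofNat]

theorem three_mul_cancel (x y : G) (h : 3 * x = 3 * y) : x = y := by
  have h1 := congrArg QuadraticAlgebra.re h
  have h2 := congrArg QuadraticAlgebra.im h
  simp [QuadraticAlgebra.re_mul, QuadraticAlgebra.im_mul, QuadraticAlgebra.re_ofNat,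
    QuadraticAlgebra.im_ofNat] at h1 h2
  exact QuadraticAlgebra.ext h1 h2

theorem pii_cancel (x y : O) (h : pii * x = pii * y) : x = y := by
  rw [pii_mul, pii_mul] at h
  have h1 := congrArg QuadraticAlgebra.re h
  have h2 := congrArg QuadraticAlgebra.im h
  exact QuadraticAlgebra.ext h2 (three_mul_cancel _ _ h1)

theorem pii_dvd (x : O) (h : ∃ a, x.re = 3 * a) : ∃ y, x = pii * y := by
  obtain ⟨a, ha⟩ := h
  refine ⟨⟨x.im, a⟩, ?_⟩
  rw [pii_mul]
  ext1
  · exact ha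
  · rfl

/-- Integers and squares. -/
def T (D : O) : Prop := (∃ e : ℤ, D = e) ∨ ∃ X : O, D = X ^ 2

theorem re_sq (X : O) : (X ^ 2).re = X.re ^ 2 + 3 * X.im ^ 2 := by
  rw [pow_two, QuadraticAlgebra.re_mul]; ring

theorem re_nu_mul (X : O) : (nu * X).re = ⟨1, 1⟩ * X.re := by
  simp [nu, QuadraticAlgebra.re_mul]

theorem re_pii_mul (X : O) : (pii * X).re = 3 * X.im := by
  rw [pii_mul]

theorem T_step (D : O) (hD : T D) (y z : G) (h : D.re = ⟨1, 1⟩ * y ^ 2 + 3 * z) :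
    (∃ D', T D' ∧ D = 3 * D') ∧ ∃ y', y = 3 * y' := by
  rcases hD with ⟨e, rfl⟩ | ⟨X, rfl⟩
  · rw [QuadraticAlgebra.re_intCast] at h
    obtain ⟨⟨e', he⟩, hy⟩ := F2' e y z h
    refine ⟨⟨(e' : O), Or.inl ⟨e', rfl⟩, ?_⟩, hy⟩
    rw [he]
    push_cast
    ring
  · rw [re_sq] at h
    obtain ⟨hx, hy⟩ := F1' X.re y (z - X.im ^ 2) (by linear_combination h)
    obtain ⟨X', hX'⟩ := pii_dvd X hx
    refine ⟨⟨X' ^ 2, Or.inr ⟨X', rfl⟩, ?_⟩, hy⟩
    rw [hX', ← pii_sq]
    ring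

theorem descent_step (D Y Z W : O) (hD : T D)
    (h : D = nu * Y ^ 2 + pii * Z ^ 2 - pii * nu * W ^ 2) :
    ∃ D' Y' Z' W', T D' ∧ Y = pii * Y' ∧ Z = pii * Z' ∧ W = pii * W' ∧
      D' = nu * Y' ^ 2 + pii * Z' ^ 2 - pii * nu * W' ^ 2 := by
  have h0 : D = nu * Y ^ 2 + pii * (Z ^ 2 - nu * W ^ 2) := by rw [h]; ring
  have h1 : D.re = ⟨1, 1⟩ * Y.re ^ 2 + 3 * (⟨1, 1⟩ * Y.im ^ 2 + (Z ^ 2 - nu * W ^ 2).im) := by
    rw [h0, QuadraticAlgebra.re_add, re_nu_mul, re_pii_mul, re_sq]; ring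
  obtain ⟨⟨D1, hD1, hD2⟩, hy⟩ := T_step D hD _ _ h1
  obtain ⟨Y', hY'⟩ := pii_dvd Y hy
  have h2 : pii * (pii * D1) = pii * (pii * (nu * Y' ^ 2) + (Z ^ 2 - nu * W ^ 2)) := by
    have : pii * (pii * D1) = D := by rw [hD2, ← pii_sq]; ring
    rw [this, h0, hY']
    ring
  have h3 := pii_cancel _ _ h2
  have h4 : Z ^ 2 = nu * W ^ 2 + pii * (D1 - nu * Y' ^ 2) := by linear_combination -h3
  have h5 : Z.re ^ 2 = ⟨1, 1⟩ * W.re ^ 2 + 3 * (⟨1, 1⟩ * W.im ^ 2 + (D1 - nu * Y' ^ 2).im - Z.im ^ 2) := by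
    have := congrArg QuadraticAlgebra.re h4
    rw [QuadraticAlgebra.re_add, re_nu_mul, re_pii_mul, re_sq, re_sq] at this
    linear_combination this
  obtain ⟨hz, hw⟩ := F1' _ _ _ h5
  obtain ⟨Z', hZ'⟩ := pii_dvd Z hz
  obtain ⟨W', hW'⟩ := pii_dvd W hw
  refine ⟨D1, Y', Z', W', hD1, hY', hZ', hW', ?_⟩
  apply pii_cancel
  rw [h3, hZ', hW']
  ring

theorem descent (n : ℕ) : ∀ D Y Z W : O, T D →
    D = nu * Y ^ 2 + pii * Z ^ 2 - pii * nu * W ^ 2 → pii ^ n ∣ Y ∧ pii ^ n ∣ Z ∧ pii ^ n ∣ W := by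
  induction n with
  | zero => intro D Y Z W _ _; simp
  | succ n ih =>
    intro D Y Z W hD h
    obtain ⟨D', Y', Z', W', hD', rfl, rfl, rfl, h'⟩ := descent_step D Y Z W hD h
    obtain ⟨h1, h2, h3⟩ := ih D' Y' Z' W' hD' h'
    rw [pow_succ']
    exact ⟨mul_dvd_mul_left _ h1, mul_dvd_mul_left _ h2, mul_dvd_mul_left _ h3⟩

theorem pow_three_dvd (n : ℕ) (Y : O) (h : pii ^ (2 * n) ∣ Y) : ((3 ^ n : ℤ) : O) ∣ Y := by
  have : ((3 ^ n : ℤ) : O) = pii ^ (2 * n) := by
    rw [pow_mul, pow_two, pii_sq]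
    push_cast
    rfl
  rwa [this]

theorem int_zero (a : ℤ) (h : ∀ n : ℕ, (3 ^ n : ℤ) ∣ a) : a = 0 := by
  have h1 := h a.natAbs
  have h2 : |a| < 3 ^ a.natAbs := by
    have := Nat.lt_pow_self (n := a.natAbs) (show 1 < 3 by norm_num)
    rw [Int.abs_eq_natAbs]
    exact_mod_cast this
  exact Int.eq_zero_of_abs_lt_dvd h1 h2

theorem int_smul_comp (m : ℤ) (Y : O) : ((m : O) * Y).re.re = m * Y.re.re ∧
    ((m : O) * Y).re.im = m * Y.re.im ∧ ((m : O) * Y).im.re = m * Y.im.re ∧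
    ((m : O) * Y).im.im = m * Y.im.im := by
  refine ⟨?_, ?_, ?_, ?_⟩ <;>
  simp [QuadraticAlgebra.re_mul, QuadraticAlgebra.im_mul, QuadraticAlgebra.re_intCast,
    QuadraticAlgebra.im_intCast]

theorem zero_of_dvd (Y : O) (h : ∀ n : ℕ, pii ^ n ∣ Y) : Y = 0 := by
  have h1 : ∀ n : ℕ, (3 ^ n : ℤ) ∣ Y.re.re ∧ (3 ^ n : ℤ) ∣ Y.re.im ∧ (3 ^ n : ℤ) ∣ Y.im.re ∧
      (3 ^ n : ℤ) ∣ Y.im.im := by
    intro n
    obtain ⟨c, hc⟩ := pow_three_dvd n Y (h _)
    obtain ⟨h1, h2, h3, h4⟩ := int_smul_comp (3 ^ n) c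
    rw [← hc] at h1 h2 h3 h4
    exact ⟨⟨_, h1⟩, ⟨_, h2⟩, ⟨_, h3⟩, ⟨_, h4⟩⟩
  have e1 := int_zero _ fun n => (h1 n).1
  have e2 := int_zero _ fun n => (h1 n).2.1
  have e3 := int_zero _ fun n => (h1 n).2.2.1
  have e4 := int_zero _ fun n => (h1 n).2.2.2
  ext1
  · exact QuadraticAlgebra.ext e1 e2
  · exact QuadraticAlgebra.ext e3 e4

theorem descent_zero (D Y Z W : O) (hD : T D)
    (h : D = nu * Y ^ 2 + pii * Z ^ 2 - pii * nu * W ^ 2) : Y = 0 ∧ Z = 0 ∧ W = 0 :=
  ⟨zero_of_dvd _ fun n => (descent n D Y Z W hD h).1,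
    zero_of_dvd _ fun n => (descent n D Y Z W hD h).2.1,
    zero_of_dvd _ fun n => (descent n D Y Z W hD h).2.2⟩

theorem int_sq_three (x y : ℤ) (h : x ^ 2 = 3 * y ^ 2) : x = 0 ∧ y = 0 := by
  by_cases hy : y = 0
  · subst hy
    simpa using h
  · exfalso
    have h1 : Irrational (Real.sqrt (3 : ℕ)) := Nat.Prime.irrational_sqrt (by norm_num)
    apply h1
    refine ⟨(|x| : ℚ) / |y|, ?_⟩
    have hy' : (0 : ℝ) < |(y : ℝ)| := abs_pos.2 (by exact_mod_cast hy)
    have h2 : ((x : ℝ)) ^ 2 = 3 * (y : ℝ) ^ 2 := by exact_mod_cast h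
    symm
    rw [Real.sqrt_eq_iff_mul_self_eq (by norm_num) (by positivity)]
    push_cast
    rw [div_mul_div_comm, ← abs_mul, ← abs_mul, abs_mul_self, abs_mul_self]
    have hy2 : (y : ℝ) * y ≠ 0 := mul_self_ne_zero.2 (by exact_mod_cast hy)
    rw [eq_div_iff hy2]
    linear_combination -h2

/-- Every nonzero element of `O` divides a nonzero integer. -/
theorem exists_norm (c : O) (hc : c ≠ 0) : ∃ (c' : O) (M : ℤ), M ≠ 0 ∧ c * c' = M := by
  set a := c.re with ha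
  set b := c.im with hb
  set n1 : G := a ^ 2 - 3 * b ^ 2 with hn1
  set n2 : G := ⟨n1.re, -n1.im⟩ with hn2
  refine ⟨⟨a, -b⟩ * ⟨n2, 0⟩, n1.re ^ 2 + n1.im ^ 2, ?_, ?_⟩
  · intro hM
    have h1 : n1.re = 0 := by nlinarith [sq_nonneg n1.re, sq_nonneg n1.im]
    have h2 : n1.im = 0 := by nlinarith [sq_nonneg n1.re, sq_nonneg n1.im]
    simp only [hn1, pow_two, QuadraticAlgebra.re_sub, QuadraticAlgebra.im_sub,
      QuadraticAlgebra.re_mul, QuadraticAlgebra.im_mul, QuadraticAlgebra.re_ofNat,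
      QuadraticAlgebra.im_ofNat] at h1 h2
    ring_nf at h1 h2
    have h3 : (a.re ^ 2 + a.im ^ 2) ^ 2 = (3 * (b.re ^ 2 + b.im ^ 2)) ^ 2 := by
      linear_combination (a.re ^ 2 - a.im ^ 2 + 3 * (b.re ^ 2 - b.im ^ 2)) * h1 +
        (2 * a.re * a.im + 6 * b.re * b.im) * h2
    have h4 : a.re ^ 2 + a.im ^ 2 = 3 * (b.re ^ 2 + b.im ^ 2) := by
      have := abs_eq_abs.2 (sq_eq_sq_iff_eq_or_eq_neg.1 h3)
      rwa [abs_of_nonneg (by positivity), abs_of_nonneg (by positivity)] at this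
    obtain ⟨e1, e2⟩ := int_sq_three a.re b.re (by linarith)
    obtain ⟨e3, e4⟩ := int_sq_three a.im b.im (by linarith)
    apply hc
    ext1
    · exact QuadraticAlgebra.ext e1 e3
    · exact QuadraticAlgebra.ext e2 e4
  · have h1 : c * ⟨a, -b⟩ = ⟨n1, 0⟩ := by
      ext1
      · simp only [QuadraticAlgebra.re_mul, ← ha, ← hb, hn1]; ring
      · simp only [QuadraticAlgebra.im_mul, ← ha, ← hb]; ring
    have h5 : n1 * n2 = ((n1.re ^ 2 + n1.im ^ 2 : ℤ) : G) := by
      ext1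
      · rw [QuadraticAlgebra.re_intCast]
        simp only [hn2, QuadraticAlgebra.re_mul, Int.cast_id]
        ring
      · rw [QuadraticAlgebra.im_intCast]
        simp only [hn2, QuadraticAlgebra.im_mul]
        ring
    rw [← mul_assoc, h1]
    ext1
    · rw [QuadraticAlgebra.re_mul, QuadraticAlgebra.re_intCast, ← h5]
      ring
    · rw [QuadraticAlgebra.im_mul, QuadraticAlgebra.im_intCast]
      ring

theorem int_cancel (M : ℤ) (hM : M ≠ 0) (y : O) (h : (M : O) * y = 0) : y = 0 := by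
  obtain ⟨h1, h2, h3, h4⟩ := int_smul_comp M y
  rw [h] at h1 h2 h3 h4
  have e1 : y.re.re = 0 := by
    rcases mul_eq_zero.1 h1.symm with h | h
    · exact absurd h hM
    · exact h
  have e2 : y.re.im = 0 := by
    rcases mul_eq_zero.1 h2.symm with h | h
    · exact absurd h hM
    · exact h
  have e3 : y.im.re = 0 := by
    rcases mul_eq_zero.1 h3.symm with h | h
    · exact absurd h hM
    · exact h
  have e4 : y.im.im = 0 := by
    rcases mul_eq_zero.1 h4.symm with h | h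
    · exact absurd h hM
    · exact h
  ext1
  · exact QuadraticAlgebra.ext e1 e2
  · exact QuadraticAlgebra.ext e3 e4

theorem O_cancel (c : O) (hc : c ≠ 0) (y : O) (h : c * y = 0) : y = 0 := by
  obtain ⟨c', M, hM, hcM⟩ := exists_norm c hc
  apply int_cancel M hM
  rw [← hcM]
  linear_combination c' * h

/-- The norm form of a quaternion algebra over `Q(i, sqrt 3)`. -/
def Q (x : Fin 4 → O) : O := x 0 ^ 2 - nu * x 1 ^ 2 - pii * x 2 ^ 2 + pii * nu * x 3 ^ 2

/-- Half of its polar form. -/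
def B (x y : Fin 4 → O) : O := x 0 * y 0 - nu * x 1 * y 1 - pii * x 2 * y 2 + pii * nu * x 3 * y 3

theorem Q_add (x y : Fin 4 → O) : Q (x + y) = Q x + 2 * B x y + Q y := by
  simp only [Q, B, Pi.add_apply]; ring

theorem Q_comb (x y : Fin 4 → O) (s t : O) :
    Q (fun i => s * x i + t * y i) = s ^ 2 * Q x + 2 * s * t * B x y + t ^ 2 * Q y := by
  simp only [Q, B]; ring

theorem aniso (x : Fin 4 → O) (h : Q x = 0) : x = 0 := by
  have h0 : x 0 ^ 2 = nu * x 1 ^ 2 + pii * x 2 ^ 2 - pii * nu * x 3 ^ 2 := by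
    rw [Q] at h
    linear_combination h
  obtain ⟨h1, h2, h3⟩ := descent_zero _ _ _ _ (Or.inr ⟨x 0, rfl⟩) h0
  rw [h1, h2, h3] at h0
  have h4 : x 0 * x 0 = 0 := by linear_combination h0
  have h5 : x 0 = 0 := by
    by_contra hne
    exact hne (O_cancel _ hne _ h4)
  funext i
  fin_cases i
  · exact h5
  · exact h1
  · exact h2
  · exact h3

/-- If the restriction of `Q` to the span of `u` and `v` has rational rank at most one, then
`u` and `v` are proportional. -/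
theorem key (u v : Fin 4 → O) (E F H : ℤ) (hE : E ≠ 0)
    (h1 : (E : O) * (2 * B u v) = H * Q u) (h2 : (E : O) * Q v = F * Q u) (i : Fin 4) :
    ((2 * E : ℤ) : O) * v i = H * u i := by
  by_cases hu : Q u = 0
  · have hu0 := aniso u hu
    rw [hu, mul_zero] at h2
    have hv0 := aniso v (int_cancel E hE _ h2)
    rw [hu0, hv0]
    simp
  · obtain ⟨c', M, hM, hcM⟩ := exists_norm (Q u) hu
    set P1 : O := u 0 * v 1 - u 1 * v 0 + pii * (u 2 * v 3 - u 3 * v 2) with hP1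
    set P2 : O := u 0 * v 2 - u 2 * v 0 - nu * (u 1 * v 3 - u 3 * v 1) with hP2
    set P3 : O := u 0 * v 3 - u 3 * v 0 - (u 1 * v 2 - u 2 * v 1) with hP3
    have hid : Q u * Q v = B u v ^ 2 - nu * P1 ^ 2 - pii * P2 ^ 2 + pii * nu * P3 ^ 2 := by
      simp only [Q, B, hP1, hP2, hP3]; ring
    have h3 : (((H ^ 2 - 4 * E * F) * M ^ 2 : ℤ) : O) = nu * (2 * E * P1 * c') ^ 2 +
        pii * (2 * E * P2 * c') ^ 2 - pii * nu * (2 * E * P3 * c') ^ 2 := by
      push_cast
      rw [← hcM]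
      linear_combination (-4 * (E : O) ^ 2 * c' ^ 2) * hid + (4 * (E : O) * Q u * c' ^ 2) * h2
        - (H * Q u + 2 * E * B u v) * c' ^ 2 * h1
    obtain ⟨e1, e2, e3⟩ := descent_zero _ _ _ _ (Or.inl ⟨_, rfl⟩) h3
    have hE2 : (2 * E : ℤ) * M ≠ 0 := mul_ne_zero (mul_ne_zero two_ne_zero hE) hM
    have hz : ∀ P : O, 2 * E * P * c' = 0 → P = 0 := by
      intro P hP
      apply int_cancel _ hE2
      push_cast
      rw [← hcM]
      linear_combination (Q u) * hP
    have hp1 := hz _ e1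
    have hp2 := hz _ e2
    have hp3 := hz _ e3
    have h4 : Q u * v i = B u v * u i := by
      fin_cases i
      · simp only [Fin.zero_eta, Fin.isValue]
        simp only [Q, B]
        linear_combination (nu * u 1) * hp1 + (pii * u 2) * hp2 - (pii * nu * u 3) * hp3
      · simp only [Fin.mk_one, Fin.isValue]
        simp only [Q, B]
        linear_combination (u 0) * hp1 - (pii * u 2) * hp3 + (pii * u 3) * hp2
      · simp only [Fin.reduceFinMk, Fin.isValue]
        simp only [Q, B]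
        linear_combination (u 0) * hp2 + (nu * u 1) * hp3 - (nu * u 3) * hp1
      · simp only [Fin.reduceFinMk, Fin.isValue]
        simp only [Q, B]
        linear_combination (u 0) * hp3 + (u 1) * hp2 - (u 2) * hp1
    have h5 : Q u * (((2 * E : ℤ) : O) * v i - H * u i) = 0 := by
      push_cast
      linear_combination (2 * (E : O)) * h4 + (u i) * h1
    exact sub_eq_zero.1 (O_cancel _ hu _ h5)

/-- Index set of the `16 k` integer coordinates. -/
abbrev I (k : ℕ) := Fin k × Fin 4 × Fin 4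

/-- The `j`-th block of an integer vector, as a vector with four entries in `O`. -/
def blk {k : ℕ} (x : I k → ℤ) (j : Fin k) : Fin 4 → O :=
  fun l => ⟨⟨x (j, l, 0), x (j, l, 1)⟩, ⟨x (j, l, 2), x (j, l, 3)⟩⟩

/-- The four integer coordinates of an element of `O`. -/
def comp (y : O) : Fin 4 → ℤ := ![y.re.re, y.re.im, y.im.re, y.im.im]

/-- The `4 k` integral quadratic forms. -/
def q {k : ℕ} (x : I k → ℤ) : Fin k × Fin 4 → ℤ := fun a => comp (Q (blk x a.1)) a.2

/-- The graph map. -/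
def pt {k : ℕ} (x : I k → ℤ) : I k ⊕ (Fin k × Fin 4) → ℤ := Sum.elim x (q x)

theorem blk_add {k : ℕ} (x y : I k → ℤ) (j : Fin k) : blk (x + y) j = blk x j + blk y j := rfl

theorem blk_sub {k : ℕ} (x y : I k → ℤ) (j : Fin k) : blk (x - y) j = blk x j - blk y j := rfl

theorem blk_smul {k : ℕ} (h : ℤ) (x : I k → ℤ) (j : Fin k) (l : Fin 4) :
    blk (h • x) j l = (h : O) * blk x j l := by
  obtain ⟨h1, h2, h3, h4⟩ := int_smul_comp h (blk x j l)
  ext1
  · exact QuadraticAlgebra.ext h1.symm h2.symm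
  · exact QuadraticAlgebra.ext h3.symm h4.symm

theorem blk_inj {k : ℕ} (x y : I k → ℤ) (h : ∀ j l, blk x j l = blk y j l) : x = y := by
  funext a
  obtain ⟨j, l, m⟩ := a
  have h0 := h j l
  have h1 := congrArg (fun z : O => z.re.re) h0
  have h2 := congrArg (fun z : O => z.re.im) h0
  have h3 := congrArg (fun z : O => z.im.re) h0
  have h4 := congrArg (fun z : O => z.im.im) h0
  simp only [blk] at h1 h2 h3 h4
  fin_cases m
  · exact h1
  · exact h2
  · exact h3
  · exact h4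

theorem comp_inj (y z : O) (h : ∀ m, comp y m = comp z m) : y = z := by
  have h1 := h 0
  have h2 := h 1
  have h3 := h 2
  have h4 := h 3
  simp [comp] at h1 h2 h3 h4
  ext1
  · exact QuadraticAlgebra.ext h1 h2
  · exact QuadraticAlgebra.ext h3 h4

theorem comp_add (y z : O) (m : Fin 4) : comp (y + z) m = comp y m + comp z m := by
  fin_cases m <;> simp [comp]

theorem comp_sub (y z : O) (m : Fin 4) : comp (y - z) m = comp y m - comp z m := by
  fin_cases m <;> simp [comp]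

theorem comp_smul (h : ℤ) (y : O) (m : Fin 4) : comp ((h : O) * y) m = h * comp y m := by
  obtain ⟨h1, h2, h3, h4⟩ := int_smul_comp h y
  fin_cases m
  · exact h1
  · exact h2
  · exact h3
  · exact h4

open Matrix in
/-- No three distinct points of a sphere centred at the origin are collinear. -/
theorem noncol {τ : Type*} [Fintype τ] (n : ℤ) (x y z : τ → ℤ) (hx : x ⬝ᵥ x = n) (hy : y ⬝ᵥ y = n)
    (hz : z ⬝ᵥ z = n) (hxy : y ≠ x) (hxz : z ≠ x) (hyz : y ≠ z) (h s : ℤ)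
    (hs : h • (y - x) = s • (z - x)) : h = 0 ∧ s = 0 := by
  set a := y - x with ha
  set b := z - x with hb
  have hya : y = x + a := by rw [ha]; abel
  have hzb : z = x + b := by rw [hb]; abel
  have h1 : 2 * (x ⬝ᵥ a) + a ⬝ᵥ a = 0 := by
    rw [hya] at hy
    simp only [add_dotProduct, dotProduct_add] at hy
    have := dotProduct_comm a x
    linarith
  have h2 : 2 * (x ⬝ᵥ b) + b ⬝ᵥ b = 0 := by
    rw [hzb] at hz
    simp only [add_dotProduct, dotProduct_add] at hz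
    have := dotProduct_comm b x
    linarith
  have h3 : h * (x ⬝ᵥ a) = s * (x ⬝ᵥ b) := by
    have := congrArg (fun w => x ⬝ᵥ w) hs
    simpa only [dotProduct_smul, smul_eq_mul] using this
  have h4 : h * h * (a ⬝ᵥ a) = s * s * (b ⬝ᵥ b) := by
    have := congrArg (fun w => w ⬝ᵥ w) hs
    simp only [dotProduct_smul, smul_dotProduct, smul_eq_mul] at this
    linarith
  have ha0 : a ≠ 0 := sub_ne_zero.2 hxy
  have hb0 : b ≠ 0 := sub_ne_zero.2 hxz
  have hbb : b ⬝ᵥ b ≠ 0 := fun h => hb0 (dotProduct_self_eq_zero.1 h)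
  have h5 : s * (h - s) * (b ⬝ᵥ b) = 0 := by
    linear_combination h4 - h * (h * h1 - 2 * h3 - s * h2)
  have h6 : s * (h - s) = 0 := by
    rcases mul_eq_zero.1 h5 with h6 | h6
    · exact h6
    · exact absurd h6 hbb
  rcases mul_eq_zero.1 h6 with h7 | h7
  · rw [h7, zero_smul] at hs
    rcases smul_eq_zero.1 hs with h8 | h8
    · exact ⟨h8, h7⟩
    · exact absurd h8 ha0
  · have h8 : h = s := by linarith
    subst h8
    by_cases h9 : h = 0
    · exact ⟨h9, h9⟩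
    · exfalso
      have h10 : a = b := smul_right_injective _ h9 hs
      apply hyz
      rw [hya, hzb, h10]

/-- The relation produced by one further coplanar point. -/
theorem rel_eq {k : ℕ} (x0 u v w : I k → ℤ) (s t h : ℤ) (hw : h • w = s • u + t • v)
    (hq : h • (q (x0 + w) - q x0) = s • (q (x0 + u) - q x0) + t • (q (x0 + v) - q x0)) (j : Fin k) :
    ((s * (s - h) : ℤ) : O) * Q (blk u j) + ((s * t : ℤ) : O) * (2 * B (blk u j) (blk v j)) +
      ((t * (t - h) : ℤ) : O) * Q (blk v j) = 0 := by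
  have h1 : (h : O) * (Q (blk (x0 + w) j) - Q (blk x0 j)) =
      s * (Q (blk (x0 + u) j) - Q (blk x0 j)) + t * (Q (blk (x0 + v) j) - Q (blk x0 j)) := by
    apply comp_inj
    intro m
    have := congrFun hq (j, m)
    simp only [Pi.smul_apply, Pi.sub_apply, Pi.add_apply, smul_eq_mul, q] at this
    rw [comp_add, comp_smul, comp_smul, comp_smul, comp_sub, comp_sub, comp_sub]
    exact this
  rw [blk_add, blk_add, blk_add, Q_add, Q_add, Q_add] at h1
  have h2 : ∀ l, (h : O) * blk w j l = s * blk u j l + t * blk v j l := by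
    intro l
    rw [← blk_smul, ← blk_smul, ← blk_smul, hw]
    rfl
  have h3 : (h : O) * B (blk x0 j) (blk w j) =
      s * B (blk x0 j) (blk u j) + t * B (blk x0 j) (blk v j) := by
    simp only [B]
    linear_combination (blk x0 j 0) * h2 0 - (nu * blk x0 j 1) * h2 1 - (pii * blk x0 j 2) * h2 2
      + (pii * nu * blk x0 j 3) * h2 3
  have h4 : (h : O) ^ 2 * Q (blk w j) = s ^ 2 * Q (blk u j) + 2 * s * t * B (blk u j) (blk v j)
      + t ^ 2 * Q (blk v j) := by
    rw [← Q_comb]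
    have : (fun i => (s : O) * blk u j i + t * blk v j i) = fun i => (h : O) * blk w j i := by
      funext i
      rw [h2]
    rw [this]
    simp only [Q]
    ring
  push_cast
  linear_combination (h : O) * h1 - h4 - 2 * (h : O) * h3

open Matrix in
/-- The core statement: five distinct points of the graph above a sphere are never coplanar. -/
theorem core {k : ℕ} (n : ℤ) (x : Fin 5 → I k → ℤ) (hinj : Function.Injective x)
    (hn : ∀ i, x i ⬝ᵥ x i = n)
    (h3 : ∃ c : Fin 3 → ℤ, c ≠ 0 ∧ c 0 • (pt (x 1) - pt (x 0)) + c 1 • (pt (x 2) - pt (x 0))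
      + c 2 • (pt (x 3) - pt (x 0)) = 0)
    (h4 : ∃ c : Fin 3 → ℤ, c ≠ 0 ∧ c 0 • (pt (x 1) - pt (x 0)) + c 1 • (pt (x 2) - pt (x 0))
      + c 2 • (pt (x 4) - pt (x 0)) = 0) : False := by
  have hne : ∀ i j : Fin 5, i ≠ j → x i ≠ x j := fun i j hij h => hij (hinj h)
  -- normal form of the two relations
  have aux : ∀ y : I k → ℤ, (∃ c : Fin 3 → ℤ, c ≠ 0 ∧ c 0 • (pt (x 1) - pt (x 0)) +
      c 1 • (pt (x 2) - pt (x 0)) + c 2 • (pt y - pt (x 0)) = 0) →
      ∃ s t h : ℤ, h ≠ 0 ∧ h • (y - x 0) = s • (x 1 - x 0) + t • (x 2 - x 0) ∧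
        h • (q y - q (x 0)) = s • (q (x 1) - q (x 0)) + t • (q (x 2) - q (x 0)) := by
    rintro y ⟨c, hc, hrel⟩
    have r1 : c 0 • (x 1 - x 0) + c 1 • (x 2 - x 0) + c 2 • (y - x 0) = 0 := by
      funext a
      have := congrFun hrel (Sum.inl a)
      simpa [pt] using this
    have r2 : c 0 • (q (x 1) - q (x 0)) + c 1 • (q (x 2) - q (x 0)) + c 2 • (q y - q (x 0)) = 0 := by
      funext a
      have := congrFun hrel (Sum.inr a)
      simpa [pt] using this
    refine ⟨-c 0, -c 1, c 2, ?_, ?_, ?_⟩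
    · intro h2
      rw [h2, zero_smul, add_zero] at r1
      have := noncol n (x 0) (x 1) (x 2) (hn 0) (hn 1) (hn 2) (hne 1 0 (by decide))
        (hne 2 0 (by decide)) (hne 1 2 (by decide)) (c 0) (-c 1)
        (by rw [neg_smul]; exact eq_neg_of_add_eq_zero_left r1)
      apply hc
      funext i
      fin_cases i
      · exact this.1
      · exact neg_eq_zero.1 this.2
      · exact h2
    · rw [neg_smul, neg_smul, ← neg_add]
      exact eq_neg_of_add_eq_zero_right r1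
    · rw [neg_smul, neg_smul, ← neg_add]
      exact eq_neg_of_add_eq_zero_right r2
  obtain ⟨s, t, h, hh, e1, e2⟩ := aux _ h3
  obtain ⟨s', t', h', hh', e1', e2'⟩ := aux _ h4
  set u := x 1 - x 0 with hu
  set v := x 2 - x 0 with hv
  set w := x 3 - x 0 with hw
  set w' := x 4 - x 0 with hw'
  have x1e : x 1 = x 0 + u := by rw [hu]; abel
  have x2e : x 2 = x 0 + v := by rw [hv]; abel
  have x3e : x 3 = x 0 + w := by rw [hw]; abel
  have x4e : x 4 = x 0 + w' := by rw [hw']; abel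
  -- nonvanishing facts
  have ht : t ≠ 0 := by
    intro h0
    rw [h0, zero_smul, add_zero] at e1
    exact hh (noncol n (x 0) (x 3) (x 1) (hn 0) (hn 3) (hn 1) (hne 3 0 (by decide))
      (hne 1 0 (by decide)) (hne 3 1 (by decide)) h s e1).1
  have ht' : t' ≠ 0 := by
    intro h0
    rw [h0, zero_smul, add_zero] at e1'
    exact hh' (noncol n (x 0) (x 4) (x 1) (hn 0) (hn 4) (hn 1) (hne 4 0 (by decide))
      (hne 1 0 (by decide)) (hne 4 1 (by decide)) h' s' e1').1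
  have hd : s * (t' - h') - s' * (t - h) ≠ 0 := by
    intro h0
    have f1 : h • (x 3 - x 2) = s • u + (t - h) • v := by
      have : x 3 - x 2 = w - v := by rw [hw, hv]; abel
      rw [this, smul_sub, e1, sub_smul]; abel
    have f2 : h' • (x 4 - x 2) = s' • u + (t' - h') • v := by
      have : x 4 - x 2 = w' - v := by rw [hw', hv]; abel
      rw [this, smul_sub, e1', sub_smul]; abel
    have f3 : (s' * h) • (x 3 - x 2) = (s * h') • (x 4 - x 2) := by
      rw [mul_smul, mul_smul, f1, f2, smul_add, smul_add, smul_smul, smul_smul, smul_smul, smul_smul,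
        mul_comm s' s]
      congr 2
      linarith
    have f4 : ((t' - h') * h) • (x 3 - x 2) = ((t - h) * h') • (x 4 - x 2) := by
      rw [mul_smul, mul_smul, f1, f2, smul_add, smul_add, smul_smul, smul_smul, smul_smul, smul_smul,
        mul_comm (t' - h') (t - h)]
      congr 2
      linarith
    have g1 := noncol n (x 2) (x 3) (x 4) (hn 2) (hn 3) (hn 4) (hne 3 2 (by decide))
      (hne 4 2 (by decide)) (hne 3 4 (by decide)) _ _ f3
    have g2 := noncol n (x 2) (x 3) (x 4) (hn 2) (hn 3) (hn 4) (hne 3 2 (by decide))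
      (hne 4 2 (by decide)) (hne 3 4 (by decide)) _ _ f4
    have s0 : s = 0 := by
      rcases mul_eq_zero.1 g1.2 with h5 | h5
      · exact h5
      · exact absurd h5 hh'
    have t0 : t - h = 0 := by
      rcases mul_eq_zero.1 g2.2 with h5 | h5
      · exact h5
      · exact absurd h5 hh'
    rw [s0, t0, zero_smul, zero_smul, add_zero] at f1
    rcases smul_eq_zero.1 f1 with h5 | h5
    · exact hh h5
    · exact hne 3 2 (by decide) (sub_eq_zero.1 h5)
  -- the two quadratic relations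
  rw [x1e, x2e, x3e] at e2
  rw [x1e, x2e, x4e] at e2'
  have R1 := rel_eq (x 0) u v w s t h e1 e2
  have R2 := rel_eq (x 0) u v w' s' t' h' e1' e2'
  set E : ℤ := t * t' * (s * (t' - h') - s' * (t - h)) with hE
  have hE0 : E ≠ 0 := mul_ne_zero (mul_ne_zero ht ht') hd
  set H : ℤ := s' * (s' - h') * (t * (t - h)) - s * (s - h) * (t' * (t' - h')) with hH
  set F : ℤ := s * (s - h) * (s' * t') - s' * (s' - h') * (s * t) with hF
  have K : ∀ j l, ((2 * E : ℤ) : O) * blk v j l = H * blk u j l := by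
    intro j l
    apply key (blk u j) (blk v j) E F H hE0
    · rw [hE, hH]
      have r1 := R1 j
      have r2 := R2 j
      push_cast at r1 r2 ⊢
      linear_combination (t' * (t' - h') : O) * r1 - (t * (t - h) : O) * r2
    · rw [hE, hF]
      have r1 := R1 j
      have r2 := R2 j
      push_cast at r1 r2 ⊢
      linear_combination (-(s' * t') : O) * r1 + (s * t : O) * r2
  have K2 : (2 * E) • v = H • u := by
    apply blk_inj
    intro j l
    rw [blk_smul, blk_smul]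
    exact K j l
  have := noncol n (x 0) (x 2) (x 1) (hn 0) (hn 2) (hn 1) (hne 2 0 (by decide))
    (hne 1 0 (by decide)) (hne 2 1 (by decide)) _ _ K2
  exact hE0 (by linarith [this.1])

open Matrix in
/-- Integer vectors that are linearly dependent over the reals are dependent over the integers. -/
theorem int_dep {τ : Type*} [Fintype τ] (w : Fin 3 → τ → ℤ) (g : Fin 3 → ℝ) (hg : g ≠ 0)
    (h : ∀ a, ∑ i, g i * (w i a : ℝ) = 0) :
    ∃ c : Fin 3 → ℤ, c ≠ 0 ∧ ∀ a, ∑ i, c i * w i a = 0 := by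
  set M : Matrix (Fin 3) (Fin 3) ℤ := Matrix.of fun i j => ∑ a, w i a * w j a with hM
  have h1 : (M.map (Int.cast : ℤ → ℝ)).mulVec g = 0 := by
    funext i
    simp only [Matrix.mulVec, dotProduct, Matrix.map_apply, hM, Matrix.of_apply, Pi.zero_apply]
    push_cast
    simp_rw [Finset.sum_mul]
    rw [Finset.sum_comm]
    apply Finset.sum_eq_zero
    intro a _
    have := h a
    calc ∑ j, (w i a : ℝ) * w j a * g j = (w i a : ℝ) * ∑ j, g j * w j a := by
          rw [Finset.mul_sum]; exact Finset.sum_congr rfl fun j _ => by ring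
      _ = 0 := by rw [this, mul_zero]
  have h2 : (M.map (Int.cast : ℤ → ℝ)).det = 0 := Matrix.exists_mulVec_eq_zero_iff.1 ⟨g, hg, h1⟩
  have h3 : M.det = 0 := by
    have h4 : ((M.det : ℤ) : ℝ) = (M.map (Int.cast : ℤ → ℝ)).det := by
      exact RingHom.map_det (Int.castRingHom ℝ) M
    rw [h2] at h4
    exact_mod_cast h4
  obtain ⟨c, hc, hc2⟩ := Matrix.exists_mulVec_eq_zero_iff.2 h3
  refine ⟨c, hc, ?_⟩
  have h5 : ∑ a, (∑ i, c i * w i a) * (∑ i, c i * w i a) = 0 := by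
    have h6 : c ⬝ᵥ (M.mulVec c) = 0 := by rw [hc2, dotProduct_zero]
    rw [← h6]
    simp only [dotProduct, Matrix.mulVec, hM, Matrix.of_apply]
    simp_rw [Finset.sum_mul_sum, Finset.mul_sum, Finset.sum_mul, Finset.mul_sum]
    rw [Finset.sum_comm]
    apply Finset.sum_congr rfl
    intro i _
    rw [Finset.sum_comm]
    apply Finset.sum_congr rfl
    intro j _
    apply Finset.sum_congr rfl
    intro a _
    ring
  intro a
  have h7 := (Finset.sum_eq_zero_iff_of_nonneg (fun a _ => mul_self_nonneg _)).1 h5 a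
    (Finset.mem_univ _)
  exact mul_self_eq_zero.1 h7

theorem exists_proj (n : ℕ) : ∀ (V : Type) [AddCommGroup V] [Module ℝ V] [FiniteDimensional ℝ V],
    finrank ℝ V = n + 3 → ∀ S : Set (Submodule ℝ V), S.Finite → (∀ U ∈ S, finrank ℝ U ≤ 3) →
    ∃ L : V →ₗ[ℝ] EuclideanSpace ℝ (Fin 3), ∀ U ∈ S, ∀ x ∈ U, L x = 0 → x = 0 := by
  induction n with
  | zero =>
    intro V _ _ _ hV S _ _
    have e : V ≃ₗ[ℝ] EuclideanSpace ℝ (Fin 3) := LinearEquiv.ofFinrankEq _ _ (by simp [hV])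
    exact ⟨e.toLinearMap, fun U _ x _ hx => by simpa using hx⟩
  | succ n ih =>
    intro V _ _ _ hV S hS hdim
    obtain ⟨v, hv⟩ : ∃ v : V, ∀ U ∈ insert ⊥ S, v ∉ U := by
      by_contra hcon
      push Not at hcon
      have hfin : (insert ⊥ S).Finite := hS.insert _
      have h1 : (⋃ U ∈ hfin.toFinset, (U : Set V)) = Set.univ := by
        ext v
        simp only [Set.mem_iUnion, Set.mem_univ, iff_true]
        obtain ⟨U, hU, hvU⟩ := hcon v
        exact ⟨U, by simpa using hU, hvU⟩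
      have h2 := Subspace.top_mem_of_biUnion_eq_univ h1
      have h3 : (⊤ : Submodule ℝ V) ∈ insert ⊥ S := by simpa using h2
      rcases h3 with h3 | h3
      · have := congrArg (fun U : Submodule ℝ V => finrank ℝ U) h3
        simp only [finrank_top, finrank_bot] at this
        omega
      · have := hdim _ h3
        rw [finrank_top] at this
        omega
    have hv0 : v ≠ 0 := by
      intro h
      exact hv ⊥ (Set.mem_insert _ _) (by simp [h])
    set W := Submodule.span ℝ {v} with hW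
    have hq : finrank ℝ (V ⧸ W) = n + 3 := by
      have h1 := Submodule.finrank_quotient_add_finrank W
      have h2 : finrank ℝ W = 1 := finrank_span_singleton hv0
      omega
    obtain ⟨L, hL⟩ := ih (V ⧸ W) hq ((fun U => U.map W.mkQ) '' S) (hS.image _) (by
      rintro _ ⟨U, hU, rfl⟩
      exact (Submodule.finrank_map_le _ _).trans (hdim U hU))
    refine ⟨L.comp W.mkQ, ?_⟩
    intro U hU x hx hLx
    have h1 := hL _ ⟨U, hU, rfl⟩ (W.mkQ x) (Submodule.mem_map_of_mem hx) hLx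
    have h2 : x ∈ W := by simpa using h1
    obtain ⟨c, rfl⟩ := Submodule.mem_span_singleton.1 h2
    by_cases hc : c = 0
    · rw [hc, zero_smul]
    · exfalso
      apply hv U (Set.mem_insert_of_mem _ hU)
      have := U.smul_mem c⁻¹ hx
      rwa [smul_smul, inv_mul_cancel₀ hc, one_smul] at this

/-- All four integer coordinates of `X` are at most `m` in absolute value. -/
def Bd (X : O) (m : ℤ) : Prop := |X.re.re| ≤ m ∧ |X.re.im| ≤ m ∧ |X.im.re| ≤ m ∧ |X.im.im| ≤ m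

theorem Bd_add {X Y : O} {m n : ℤ} (hX : Bd X m) (hY : Bd Y n) : Bd (X + Y) (m + n) := by
  obtain ⟨a1, a2, a3, a4⟩ := hX
  obtain ⟨b1, b2, b3, b4⟩ := hY
  exact ⟨(abs_add_le _ _).trans (add_le_add a1 b1), (abs_add_le _ _).trans (add_le_add a2 b2),
    (abs_add_le _ _).trans (add_le_add a3 b3), (abs_add_le _ _).trans (add_le_add a4 b4)⟩

theorem Bd_neg {X : O} {m : ℤ} (hX : Bd X m) : Bd (-X) m := by
  obtain ⟨a1, a2, a3, a4⟩ := hX
  refine ⟨?_, ?_, ?_, ?_⟩
  · rw [QuadraticAlgebra.re_neg, QuadraticAlgebra.re_neg, abs_neg]; exact a1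
  · rw [QuadraticAlgebra.re_neg, QuadraticAlgebra.im_neg, abs_neg]; exact a2
  · rw [QuadraticAlgebra.im_neg, QuadraticAlgebra.re_neg, abs_neg]; exact a3
  · rw [QuadraticAlgebra.im_neg, QuadraticAlgebra.im_neg, abs_neg]; exact a4

theorem abs_mul_bd {a b m n : ℤ} (ha : |a| ≤ m) (hb : |b| ≤ n) : |a * b| ≤ m * n := by
  rw [abs_mul]
  exact mul_le_mul ha hb (abs_nonneg _) ((abs_nonneg _).trans ha)

theorem Bd_mul {X Y : O} {m n : ℤ} (hX : Bd X m) (hY : Bd Y n) : Bd (X * Y) (8 * (m * n)) := by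
  obtain ⟨a1, a2, a3, a4⟩ := hX
  obtain ⟨b1, b2, b3, b4⟩ := hY
  have c11 := abs_le.1 (abs_mul_bd a1 b1)
  have c12 := abs_le.1 (abs_mul_bd a1 b2)
  have c13 := abs_le.1 (abs_mul_bd a1 b3)
  have c14 := abs_le.1 (abs_mul_bd a1 b4)
  have c21 := abs_le.1 (abs_mul_bd a2 b1)
  have c22 := abs_le.1 (abs_mul_bd a2 b2)
  have c23 := abs_le.1 (abs_mul_bd a2 b3)
  have c24 := abs_le.1 (abs_mul_bd a2 b4)
  have c31 := abs_le.1 (abs_mul_bd a3 b1)
  have c32 := abs_le.1 (abs_mul_bd a3 b2)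
  have c33 := abs_le.1 (abs_mul_bd a3 b3)
  have c34 := abs_le.1 (abs_mul_bd a3 b4)
  have c41 := abs_le.1 (abs_mul_bd a4 b1)
  have c42 := abs_le.1 (abs_mul_bd a4 b2)
  have c43 := abs_le.1 (abs_mul_bd a4 b3)
  have c44 := abs_le.1 (abs_mul_bd a4 b4)
  refine ⟨?_, ?_, ?_, ?_⟩ <;>
  simp only [QuadraticAlgebra.re_mul, QuadraticAlgebra.im_mul, QuadraticAlgebra.re_add,
    QuadraticAlgebra.im_add, QuadraticAlgebra.re_ofNat, QuadraticAlgebra.im_ofNat,
    QuadraticAlgebra.re_zero, QuadraticAlgebra.im_zero] <;>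
  rw [abs_le] <;> constructor <;> nlinarith

theorem Bd_nu : Bd nu 1 := by
  refine ⟨?_, ?_, ?_, ?_⟩ <;> simp [nu]

theorem Bd_pii : Bd pii 1 := by
  refine ⟨?_, ?_, ?_, ?_⟩ <;> simp [pii, QuadraticAlgebra.re_one, QuadraticAlgebra.im_one]

theorem Bd_Q {x : Fin 4 → O} {N : ℤ} (hx : ∀ l, Bd (x l) N) : Bd (Q x) (648 * N ^ 2) := by
  have hs : ∀ l, Bd (x l ^ 2) (8 * (N * N)) := fun l => by
    rw [pow_two]; exact Bd_mul (hx l) (hx l)
  have h := Bd_add (Bd_add (Bd_add (hs 0) (Bd_neg (Bd_mul Bd_nu (hs 1))))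
    (Bd_neg (Bd_mul Bd_pii (hs 2)))) (Bd_mul (Bd_mul Bd_pii Bd_nu) (hs 3))
  have e1 : Q x = x 0 ^ 2 + -(nu * x 1 ^ 2) + -(pii * x 2 ^ 2) + pii * nu * x 3 ^ 2 := by
    rw [Q]; ring
  have e2 : 648 * N ^ 2 = 8 * (N * N) + 8 * (1 * (8 * (N * N))) + 8 * (1 * (8 * (N * N))) +
      8 * (8 * (1 * 1) * (8 * (N * N))) := by ring
  rw [e1, e2]
  exact h

theorem Bd_comp {X : O} {m : ℤ} (hX : Bd X m) (i : Fin 4) : |comp X i| ≤ m := by
  obtain ⟨a1, a2, a3, a4⟩ := hX
  fin_cases i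
  · exact a1
  · exact a2
  · exact a3
  · exact a4

theorem q_bound {k : ℕ} {N : ℤ} (x : I k → ℤ) (hx : ∀ a, 1 ≤ x a ∧ x a ≤ N)
    (b : Fin k × Fin 4) : |q x b| ≤ 648 * N ^ 2 := by
  apply Bd_comp
  apply Bd_Q
  intro l
  have h : ∀ a, |x a| ≤ N := fun a => by
    rw [abs_le]; exact ⟨by linarith [(hx a).1, (hx a).2], (hx a).2⟩
  exact ⟨h _, h _, h _, h _⟩

theorem no_five {k : ℕ} (n : ℤ) (x : Fin 5 → I k → ℤ) (hinj : Function.Injective x)
    (hn : ∀ i, x i ⬝ᵥ x i = n)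
    (h : ∀ i : Fin 5, ∃ g : Fin 3 → ℝ, g ≠ 0 ∧ ∀ a, g 0 * ((pt (x 1) a : ℝ) - pt (x 0) a) +
      g 1 * ((pt (x 2) a : ℝ) - pt (x 0) a) + g 2 * ((pt (x i) a : ℝ) - pt (x 0) a) = 0) : False := by
  have key2 : ∀ i : Fin 5, ∃ c : Fin 3 → ℤ, c ≠ 0 ∧ c 0 • (pt (x 1) - pt (x 0)) +
      c 1 • (pt (x 2) - pt (x 0)) + c 2 • (pt (x i) - pt (x 0)) = 0 := by
    intro i
    obtain ⟨g, hg, hg2⟩ := h i
    obtain ⟨c, hc, hc2⟩ := int_dep ![pt (x 1) - pt (x 0), pt (x 2) - pt (x 0), pt (x i) - pt (x 0)]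
      g hg (by
        intro a
        rw [Fin.sum_univ_three, ← hg2 a]
        simp)
    refine ⟨c, hc, ?_⟩
    funext a
    have := hc2 a
    rw [Fin.sum_univ_three] at this
    simpa using this
  exact core n x hinj hn (key2 3) (key2 4)

/-- Euclidean 3-space. -/
abbrev E3 := EuclideanSpace ℝ (Fin 3)

/-- No five points of `A` lie on a common affine plane. -/
def FiveGeneric (A : Set E3) : Prop :=
  ∀ P : AffineSubspace ℝ E3, finrank ℝ P.direction = 2 → (A ∩ P).encard ≤ 4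

/-- The doubling ratio `|A + A| / |A|`. -/
noncomputable def ratio (A : Set E3) : ℝ := ((A + A).ncard : ℝ) / (A.ncard : ℝ)

/-- The extremal function of the problem: the least doubling ratio of a 5-generic set with
`n` points. -/
noncomputable def g (n : ℕ) : ℝ :=
  sInf {r : ℝ | ∃ A : Set E3, A.Finite ∧ FiveGeneric A ∧ A.ncard = n ∧ r = ratio A}

/-- Real coordinates of a point of the graph. -/
def rp {k : ℕ} (x : I k → ℤ) : (I k ⊕ (Fin k × Fin 4)) → ℝ := fun a => (pt x a : ℝ)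

theorem rp_inj {k : ℕ} {x y : I k → ℤ} (h : rp x = rp y) : x = y := by
  funext a
  have := congrFun h (Sum.inl a)
  simpa [rp, pt] using this

/-- A 5-generic image in 3-space. -/
theorem exists_good {k : ℕ} (hk : 1 ≤ k) (n : ℤ) (X : Finset (I k → ℤ))
    (hX : ∀ x ∈ X, x ⬝ᵥ x = n) :
    ∃ L : ((I k ⊕ (Fin k × Fin 4)) → ℝ) →ₗ[ℝ] E3,
      Set.InjOn (fun x => L (rp x)) (X : Set (I k → ℤ)) ∧
      FiveGeneric ((fun x => L (rp x)) '' (X : Set (I k → ℤ))) := by
  classical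
  have hfr : finrank ℝ ((I k ⊕ (Fin k × Fin 4)) → ℝ) = (20 * k - 3) + 3 := by
    rw [finrank_fintype_fun_eq_card]
    simp only [Fintype.card_sum, Fintype.card_prod, Fintype.card_fin]
    omega
  set sp : (I k → ℤ) × (I k → ℤ) × (I k → ℤ) × (I k → ℤ) →
      Submodule ℝ ((I k ⊕ (Fin k × Fin 4)) → ℝ) := fun z =>
    Submodule.span ℝ (Set.range ![rp z.2.1 - rp z.1, rp z.2.2.1 - rp z.1, rp z.2.2.2 - rp z.1])
    with hsp
  obtain ⟨L, hL⟩ := exists_proj (20 * k - 3) _ hfr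
    (sp '' ((X ×ˢ X ×ˢ X ×ˢ X : Finset _) : Set _)) (Set.Finite.image _ (Finset.finite_toSet _)) (by
      rintro _ ⟨z, _, rfl⟩
      exact (finrank_range_le_card _).trans (by simp))
  have hinj : Set.InjOn (fun x => L (rp x)) (X : Set (I k → ℤ)) := by
    intro x hx y hy hxy
    apply rp_inj
    rw [← sub_eq_zero]
    apply hL (sp (y, x, x, x)) ⟨_, by simpa using ⟨hy, hx⟩, rfl⟩
    · exact Submodule.subset_span ⟨0, by simp⟩
    · rw [map_sub]
      exact sub_eq_zero.2 hxy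
  refine ⟨L, hinj, ?_⟩
  intro P hP
  by_contra hcon
  rw [not_le] at hcon
  have h5 : (5 : ℕ∞) ≤ (((fun x => L (rp x)) '' (X : Set (I k → ℤ))) ∩ P).encard := by
    have := Order.add_one_le_of_lt hcon
    norm_num at this
    exact this
  obtain ⟨t, ht, htc⟩ := Set.exists_subset_encard_eq h5
  have htf : t.Finite := Set.finite_of_encard_eq_coe (k := 5) (by simpa using htc)
  have htn : t.ncard = 5 := by
    rw [Set.ncard, htc]; rfl
  have htn2 : htf.toFinset.card = 5 := by rw [← Set.ncard_eq_toFinset_card t htf, htn]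
  set e := htf.toFinset.equivFinOfCardEq htn2 with he
  have hy : ∀ i : Fin 5, ∃ x ∈ X, L (rp x) = (e.symm i : E3) := by
    intro i
    have h1 : (e.symm i : E3) ∈ t := htf.mem_toFinset.1 (e.symm i).2
    obtain ⟨x, hx, hx2⟩ := (ht h1).1
    exact ⟨x, hx, hx2⟩
  choose x hx hxy using hy
  have hyP : ∀ i : Fin 5, L (rp (x i)) ∈ P := by
    intro i
    rw [hxy]
    exact (ht (htf.mem_toFinset.1 (e.symm i).2)).2
  have hxinj : Function.Injective x := by
    intro i j hij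
    have : (e.symm i : E3) = e.symm j := by rw [← hxy, ← hxy, hij]
    exact e.symm.injective (Subtype.ext this)
  apply no_five n x hxinj (fun i => hX _ (hx i))
  intro i
  have hd : ∀ j : Fin 5, L (rp (x j)) - L (rp (x 0)) ∈ P.direction := fun j =>
    AffineSubspace.vsub_mem_direction (hyP j) (hyP 0)
  have hdep : ¬ LinearIndependent ℝ (![⟨_, hd 1⟩, ⟨_, hd 2⟩, ⟨_, hd i⟩] : Fin 3 → P.direction) := by
    intro hli
    have := hli.fintype_card_le_finrank
    rw [hP] at this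
    simp at this
  rw [Fintype.not_linearIndependent_iff] at hdep
  obtain ⟨c, hc, j, hj⟩ := hdep
  refine ⟨c, fun h => hj (congrFun h j), ?_⟩
  rw [Fin.sum_univ_three] at hc
  have hc2 := congrArg (Subtype.val) hc
  simp only [Matrix.cons_val_zero, Matrix.cons_val_one, Matrix.cons_val_two, Matrix.head_cons,
    Matrix.tail_cons, Submodule.coe_add, Submodule.coe_smul, Submodule.coe_zero] at hc2
  have hz : c 0 • (rp (x 1) - rp (x 0)) + c 1 • (rp (x 2) - rp (x 0)) +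
      c 2 • (rp (x i) - rp (x 0)) = 0 := by
    apply hL (sp (x 0, x 1, x 2, x i)) ⟨_, by simpa using ⟨hx 0, hx 1, hx 2, hx i⟩, rfl⟩
    · refine Submodule.add_mem _ (Submodule.add_mem _ (Submodule.smul_mem _ _ ?_)
        (Submodule.smul_mem _ _ ?_)) (Submodule.smul_mem _ _ ?_)
      · exact Submodule.subset_span ⟨0, by simp⟩
      · exact Submodule.subset_span ⟨1, by simp⟩
      · exact Submodule.subset_span ⟨2, by simp⟩
    · simp only [map_add, map_smul, map_sub]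
      exact hc2
  intro a
  have := congrFun hz a
  simpa [rp] using this

/-- A popular sphere: if `(17 k N^2) n ≤ N^(16 k)` there are `n` points of the box on a sphere. -/
theorem exists_sphere {k : ℕ} (N n : ℕ) (hN : 1 ≤ N) (hk : 1 ≤ k)
    (h : 17 * k * N ^ 2 * n ≤ N ^ (16 * k)) :
    ∃ (m : ℤ) (X : Finset (I k → ℤ)), X.card = n ∧ (∀ x ∈ X, x ⬝ᵥ x = m) ∧
      ∀ x ∈ X, ∀ a, 1 ≤ x a ∧ x a ≤ N := by
  classical
  set S : Finset (I k → ℤ) := Fintype.piFinset fun _ => Finset.Icc (1 : ℤ) N with hS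
  have hScard : S.card = N ^ (16 * k) := by
    rw [hS, Fintype.card_piFinset]
    simp only [Int.card_Icc, Finset.prod_const, Finset.card_univ, Fintype.card_prod,
      Fintype.card_fin]
    have : ((N : ℤ) + 1 - 1).toNat = N := by simp
    rw [this]
    congr 1
    ring
  have hmem : ∀ x ∈ S, ∀ a, 1 ≤ x a ∧ x a ≤ N := by
    intro x hx a
    have := Fintype.mem_piFinset.1 hx a
    simpa using this
  set T : Finset ℤ := Finset.Icc 0 (16 * k * N ^ 2) with hT
  have hmaps : ∀ x ∈ S, x ⬝ᵥ x ∈ T := by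
    intro x hx
    rw [hT, Finset.mem_Icc]
    constructor
    · exact Finset.sum_nonneg fun a _ => mul_self_nonneg _
    · calc x ⬝ᵥ x = ∑ a, x a * x a := rfl
        _ ≤ ∑ _a : I k, ((N : ℤ) * N) := by
            apply Finset.sum_le_sum
            intro a _
            obtain ⟨h1, h2⟩ := hmem x hx a
            nlinarith
        _ = 16 * k * N ^ 2 := by
            simp only [Finset.sum_const, Finset.card_univ, Fintype.card_prod, Fintype.card_fin,
              nsmul_eq_mul]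
            push_cast
            ring
  have hTcard : T.card = 16 * k * N ^ 2 + 1 := by
    rw [hT, Int.card_Icc]
    have : (16 * (k : ℤ) * N ^ 2 + 1 - 0) = ((16 * k * N ^ 2 + 1 : ℕ) : ℤ) := by push_cast; ring
    rw [this, Int.toNat_natCast]
  have hne : T.Nonempty := Finset.card_pos.1 (by rw [hTcard]; omega)
  have hmul : T.card * n ≤ S.card := by
    rw [hTcard, hScard]
    refine le_trans (Nat.mul_le_mul_right n ?_) h
    have : 1 ≤ k * N ^ 2 := Nat.one_le_iff_ne_zero.2 (by positivity)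
    nlinarith
  obtain ⟨m, _, hm⟩ := Finset.exists_le_card_fiber_of_mul_le_card_of_maps_to hmaps hne hmul
  obtain ⟨X, hX, hXc⟩ := Finset.exists_subset_card_eq hm
  refine ⟨m, X, hXc, ?_, ?_⟩
  · intro x hx
    exact (Finset.mem_filter.1 (hX hx)).2
  · intro x hx
    exact hmem x (Finset.mem_filter.1 (hX hx)).1

theorem sumset_bound {k : ℕ} (N : ℕ) (hN : 1 ≤ N) (X : Finset (I k → ℤ))
    (hX : ∀ x ∈ X, ∀ a, 1 ≤ x a ∧ x a ≤ N) (L : ((I k ⊕ (Fin k × Fin 4)) → ℝ) →ₗ[ℝ] E3) :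
    ((fun x => L (rp x)) '' (X : Set (I k → ℤ)) + (fun x => L (rp x)) '' (X : Set (I k → ℤ))).ncard
      ≤ (2 * N) ^ (16 * k) * (2593 * N ^ 2) ^ (4 * k) := by
  classical
  set T : Finset ((I k ⊕ (Fin k × Fin 4)) → ℤ) := Fintype.piFinset
    (Sum.elim (fun _ => Finset.Icc (1 : ℤ) (2 * N))
      (fun _ => Finset.Icc (-(1296 * N ^ 2) : ℤ) (1296 * N ^ 2))) with hT
  have hTc : T.card ≤ (2 * N) ^ (16 * k) * (2593 * N ^ 2) ^ (4 * k) := by
    rw [hT, Fintype.card_piFinset, Fintype.prod_sum_type]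
    simp only [Sum.elim_inl, Sum.elim_inr, Int.card_Icc, Finset.prod_const, Finset.card_univ,
      Fintype.card_prod, Fintype.card_fin]
    have e1 : (2 * (N : ℤ) + 1 - 1).toNat = 2 * N := by
      have : (2 * (N : ℤ) + 1 - 1) = ((2 * N : ℕ) : ℤ) := by push_cast; ring
      rw [this, Int.toNat_natCast]
    have e2 : (1296 * (N : ℤ) ^ 2 + 1 - -(1296 * N ^ 2)).toNat = 2592 * N ^ 2 + 1 := by
      have : (1296 * (N : ℤ) ^ 2 + 1 - -(1296 * N ^ 2)) = ((2592 * N ^ 2 + 1 : ℕ) : ℤ) := by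
        push_cast; ring
      rw [this, Int.toNat_natCast]
    rw [e1, e2]
    have e3 : k * (4 * 4) = 16 * k := by ring
    have e4 : k * 4 = 4 * k := by ring
    rw [e3, e4]
    apply Nat.mul_le_mul_left
    apply Nat.pow_le_pow_left
    have : 1 ≤ N ^ 2 := Nat.one_le_pow _ _ hN
    omega
  have hsub : ((fun x => L (rp x)) '' (X : Set (I k → ℤ)) +
      (fun x => L (rp x)) '' (X : Set (I k → ℤ))) ⊆
      ((T.image fun z => L (fun a => (z a : ℝ)) : Finset E3) : Set E3) := by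
    rintro _ ⟨_, ⟨x, hx, rfl⟩, _, ⟨y, hy, rfl⟩, rfl⟩
    simp only [Finset.coe_image]
    refine ⟨pt x + pt y, ?_, ?_⟩
    · rw [Finset.mem_coe, hT, Fintype.mem_piFinset]
      rintro (a | b)
      · have h1 := hX x hx a
        have h2 := hX y hy a
        simp only [Sum.elim_inl, Finset.mem_Icc, Pi.add_apply, pt]
        constructor <;> linarith
      · have h1 := abs_le.1 (q_bound (N := (N : ℤ)) x (hX x hx) b)
        have h2 := abs_le.1 (q_bound (N := (N : ℤ)) y (hX y hy) b)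
        simp only [Sum.elim_inr, Finset.mem_Icc, Pi.add_apply, pt]
        constructor <;> linarith
    · simp only
      rw [← map_add]
      congr 1
      funext a
      simp [rp]
  refine (Set.ncard_le_ncard hsub (Finset.finite_toSet _)).trans ?_
  rw [Set.ncard_coe_finset]
  exact Finset.card_image_le.trans hTc

/-- Existence of 5-generic sets of every size with small sumset. -/
theorem exists_small (ε : ℝ) (hε : 0 < ε) : ∃ C : ℝ, 0 < C ∧ ∀ n : ℕ, 1 ≤ n →
    ∃ A : Set E3, A.Finite ∧ A.ncard = n ∧ FiveGeneric A ∧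
      ((A + A).ncard : ℝ) ≤ C * (n : ℝ) ^ (3 / 2 + ε) := by
  obtain ⟨k, hk⟩ := exists_nat_gt (1 / ε)
  have hk0 : (0 : ℝ) < k := lt_trans (by positivity) hk
  have hk1 : 1 ≤ k := by
    have : 0 < k := by exact_mod_cast hk0
    omega
  have hk1' : (1 : ℝ) ≤ k := by exact_mod_cast hk1
  set d : ℝ := 16 * k - 2 with hd
  have hd0 : 0 < d := by rw [hd]; linarith
  set e : ℝ := 24 * k / d with he
  have he0 : 0 ≤ e := by positivity
  have he1 : e ≤ 3 / 2 + ε := by
    rw [he, div_le_iff₀ hd0, hd]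
    have h1 : 1 ≤ ε * k := by
      rw [div_lt_iff₀ hε] at hk
      linarith
    nlinarith
  refine ⟨2 ^ (16 * k) * 2593 ^ (4 * k) * 2 ^ (24 * k) * (17 * k : ℝ) ^ e, by positivity, ?_⟩
  intro n hn
  have hn' : (1 : ℝ) ≤ n := by exact_mod_cast hn
  set z : ℝ := (17 * k * n : ℝ) ^ (1 / d) with hz
  have hbase : (1 : ℝ) ≤ 17 * k * n := by nlinarith
  have hz1 : 1 ≤ z := Real.one_le_rpow hbase (by positivity)
  set N : ℕ := ⌈z⌉₊ with hN
  have hNz : z ≤ N := Nat.le_ceil z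
  have hNz2 : (N : ℝ) ≤ 2 * z := by
    have := Nat.ceil_lt_add_one (a := z) (by linarith)
    linarith
  have hN1 : 1 ≤ N := by
    have : (1 : ℝ) ≤ N := hz1.trans hNz
    exact_mod_cast this
  have hpow : (17 * k * n : ℝ) ≤ (N : ℝ) ^ (16 * k - 2) := by
    have h1 : z ^ (16 * k - 2) = 17 * k * n := by
      rw [hz, ← Real.rpow_natCast, ← Real.rpow_mul (by linarith)]
      have : 1 / d * ((16 * k - 2 : ℕ) : ℝ) = 1 := by
        rw [Nat.cast_sub (by omega)]
        push_cast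
        rw [hd]
        field_simp
        rw [div_self (by linarith)]
      rw [this, Real.rpow_one]
    rw [← h1]
    exact pow_le_pow_left₀ (by linarith) hNz _
  have hcount : 17 * k * N ^ 2 * n ≤ N ^ (16 * k) := by
    have h1 : 17 * k * n ≤ N ^ (16 * k - 2) := by exact_mod_cast hpow
    have h2 : N ^ (16 * k) = N ^ (16 * k - 2) * N ^ 2 := by
      rw [← pow_add]; congr 1; omega
    rw [h2]
    calc 17 * k * N ^ 2 * n = (17 * k * n) * N ^ 2 := by ring
      _ ≤ _ := Nat.mul_le_mul_right _ h1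
  obtain ⟨m, X, hXc, hXm, hXb⟩ := exists_sphere N n hN1 hk1 hcount
  obtain ⟨L, hLinj, hLgen⟩ := exists_good hk1 m X hXm
  refine ⟨(fun x => L (rp x)) '' (X : Set (I k → ℤ)), (Finset.finite_toSet X).image _, ?_, hLgen, ?_⟩
  · rw [hLinj.ncard_image, Set.ncard_coe_finset, hXc]
  · have h1 := sumset_bound N hN1 X hXb L
    have h2 : (((2 * N) ^ (16 * k) * (2593 * N ^ 2) ^ (4 * k) : ℕ) : ℝ) =
        2 ^ (16 * k) * 2593 ^ (4 * k) * (N : ℝ) ^ (24 * k) := by
      push_cast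
      rw [mul_pow, mul_pow, ← pow_mul]
      have : 24 * k = 16 * k + 2 * (4 * k) := by ring
      rw [this, pow_add]
      ring
    have h3 : (N : ℝ) ^ (24 * k) ≤ 2 ^ (24 * k) * ((17 * k : ℝ) ^ e * (n : ℝ) ^ (3 / 2 + ε)) := by
      calc (N : ℝ) ^ (24 * k) ≤ (2 * z) ^ (24 * k) := pow_le_pow_left₀ (by positivity) hNz2 _
        _ = 2 ^ (24 * k) * z ^ (24 * k) := mul_pow _ _ _
        _ = 2 ^ (24 * k) * ((17 * k : ℝ) ^ e * (n : ℝ) ^ e) := by
            congr 1
            rw [hz, ← Real.rpow_natCast, ← Real.rpow_mul (by linarith),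
              ← Real.mul_rpow (by positivity) (by positivity)]
            congr 1
            rw [he]
            push_cast
            ring
        _ ≤ _ := by
            gcongr
    calc (((fun x => L (rp x)) '' (X : Set (I k → ℤ)) +
          (fun x => L (rp x)) '' (X : Set (I k → ℤ))).ncard : ℝ)
        ≤ (((2 * N) ^ (16 * k) * (2593 * N ^ 2) ^ (4 * k) : ℕ) : ℝ) := by exact_mod_cast h1
      _ = 2 ^ (16 * k) * 2593 ^ (4 * k) * (N : ℝ) ^ (24 * k) := h2
      _ ≤ 2 ^ (16 * k) * 2593 ^ (4 * k) * (2 ^ (24 * k) *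
          ((17 * k : ℝ) ^ e * (n : ℝ) ^ (3 / 2 + ε))) := by gcongr
      _ = _ := by ring

/-- The infimum in the definition of `g` is attained. -/
theorem g_attained (n : ℕ) (hn : 1 ≤ n) :
    ∃ A : Set E3, A.Finite ∧ FiveGeneric A ∧ A.ncard = n ∧ g n = ratio A := by
  classical
  obtain ⟨C, _, hC⟩ := exists_small 1 one_pos
  obtain ⟨A₀, h1, h2, h3, _⟩ := hC n hn
  have hex : ∃ m : ℕ, ∃ A : Set E3, A.Finite ∧ FiveGeneric A ∧ A.ncard = n ∧
      (A + A).ncard = m := ⟨_, A₀, h1, h3, h2, rfl⟩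
  obtain ⟨A, hA1, hA2, hA3, hA4⟩ := Nat.find_spec hex
  refine ⟨A, hA1, hA2, hA3, ?_⟩
  apply le_antisymm
  · apply csInf_le
    · refine ⟨0, ?_⟩
      rintro r ⟨A', _, _, _, rfl⟩
      exact div_nonneg (Nat.cast_nonneg _) (Nat.cast_nonneg _)
    · exact ⟨A, hA1, hA2, hA3, rfl⟩
  · unfold g
    refine le_csInf ⟨ratio A, A, hA1, hA2, hA3, rfl⟩ ?_
    rintro r ⟨A', h1', h2', h3', rfl⟩
    have hle := Nat.find_min' hex ⟨A', h1', h2', h3', rfl⟩
    rw [ratio, ratio, hA3, h3', hA4]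
    gcongr

/-- The extremal function satisfies `g(n) ≤ C_ε n^(1/2+ε)` for every positive `ε`. -/
theorem result : ∀ ε : ℝ, 0 < ε → ∃ C : ℝ, 0 < C ∧ ∀ n : ℕ, 1 ≤ n →
    g n ≤ C * (n : ℝ) ^ (1 / 2 + ε) ∧
    ∃ A : Set E3, A.Finite ∧ FiveGeneric A ∧ A.ncard = n ∧
      ((A + A).ncard : ℝ) ≤ C * (n : ℝ) ^ (3 / 2 + ε) := by
  intro ε hε
  obtain ⟨C, hC0, hC⟩ := exists_small ε hε
  refine ⟨C, hC0, ?_⟩
  intro n hn
  obtain ⟨A, h1, h2, h3, h4⟩ := hC n hn
  refine ⟨?_, A, h1, h3, h2, h4⟩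
  have hn' : (0 : ℝ) < n := by exact_mod_cast hn
  calc g n ≤ ratio A := by
        apply csInf_le
        · refine ⟨0, ?_⟩
          rintro r ⟨A', _, _, _, rfl⟩
          exact div_nonneg (Nat.cast_nonneg _) (Nat.cast_nonneg _)
        · exact ⟨A, h1, h3, h2, rfl⟩
    _ = ((A + A).ncard : ℝ) / n := by rw [ratio, h2]
    _ ≤ C * (n : ℝ) ^ (1 / 2 + ε) := by
        rw [div_le_iff₀ hn']
        refine h4.trans (le_of_eq ?_)
        rw [mul_assoc, ← Real.rpow_add_one hn'.ne']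
        congr 2
        ring

end Pool.Agent.Results.MP_4fa8e2_co.HalfPower
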